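import Mathlib

/-!
# Corollaries of the spectral comparison
-/

set_option autoImplicit false

namespace Pool.Agent.Helper82.TS

open Finset Pointwise

/-- the two comparison principles -/
def SpecH (n : ℕ) [NeZero n] (X : Finset (ℕ × ℕ)) : Prop :=
  ∀ u v g : ZMod n → ℝ, (∀ p, 0 ≤ u p) → (∀ p, 0 ≤ v p) → (∀ k, 0 ≤ g k) →
    ((∀ p q, u p * v q ≤ g (p + q)) →
      ∑ x ∈ X, u ((x.1 : ℕ) : ZMod n) * v ((x.2 : ℕ) : ZMod n) ≤ ∑ k, g k) ∧
    ((∀ p q, g (p + q) ≤ u p * v q) →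
      ∑ k, g k ≤ ∑ x ∈ X, u ((x.1 : ℕ) : ZMod n) * v ((x.2 : ℕ) : ZMod n))

variable {n : ℕ} [NeZero n] {X : Finset (ℕ × ℕ)}

theorem sum_le_max (h : SpecH n X) (α β : ZMod n → ℝ) (hα : ∀ p, 0 ≤ α p) (hβ : ∀ p, 0 ≤ β p) :
    ∑ x ∈ X, α ((x.1 : ℕ) : ZMod n) * β ((x.2 : ℕ) : ZMod n) ≤
      ∑ k : ZMod n, univ.sup' ⟨0, mem_univ _⟩ fun p : ZMod n => α p * β (k - p) := by
  refine (h α β _ hα hβ fun k => ?_).1 fun p q => ?_
  · exact (mul_nonneg (hα 0) (hβ (k - 0))).trans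
      (Finset.le_sup' (fun p : ZMod n => α p * β (k - p)) (mem_univ (0 : ZMod n)))
  · have := Finset.le_sup' (fun r : ZMod n => α r * β (p + q - r)) (mem_univ p)
    simpa using this

theorem min_le_sum (h : SpecH n X) (α β : ZMod n → ℝ) (hα : ∀ p, 0 ≤ α p) (hβ : ∀ p, 0 ≤ β p) :
    ∑ k : ZMod n, univ.inf' ⟨0, mem_univ _⟩ (fun p : ZMod n => α p * β (k - p)) ≤
      ∑ x ∈ X, α ((x.1 : ℕ) : ZMod n) * β ((x.2 : ℕ) : ZMod n) := by
  refine (h α β _ hα hβ fun k => ?_).2 fun p q => ?_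
  · exact Finset.le_inf' _ _ fun p _ => mul_nonneg (hα p) (hβ _)
  · have := Finset.inf'_le (fun r : ZMod n => α r * β (p + q - r)) (mem_univ p)
    simpa using this

theorem card_eq (h : SpecH n X) : X.card = n := by
  have h1 := h (fun _ => 1) (fun _ => 1) (fun _ => 1) (fun _ => zero_le_one)
    (fun _ => zero_le_one) (fun _ => zero_le_one)
  have h2 := h1.1 fun _ _ => by norm_num
  have h3 := h1.2 fun _ _ => by norm_num
  simp only [mul_one, sum_const, nsmul_eq_mul, card_univ, ZMod.card] at h2 h3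
  exact_mod_cast le_antisymm h2 h3

theorem card_rect (h : SpecH n X) (I J : Finset (ZMod n)) :
    (X.filter fun x => ((x.1 : ℕ) : ZMod n) ∈ I ∧ ((x.2 : ℕ) : ZMod n) ∈ J).card ≤
      (I + J).card := by
  have h1 := (h (fun p => if p ∈ I then 1 else 0) (fun p => if p ∈ J then 1 else 0)
    (fun p => if p ∈ I + J then 1 else 0) (fun p => by split_ifs <;> norm_num)
    (fun p => by split_ifs <;> norm_num) (fun p => by split_ifs <;> norm_num)).1 (fun p q => by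
      by_cases hp : p ∈ I
      · by_cases hq : q ∈ J
        · simp [hp, hq, Finset.add_mem_add hp hq]
        · simp only [hp, hq, if_true, if_false, mul_zero]
          split_ifs <;> norm_num
      · simp only [hp, if_false, zero_mul]
        split_ifs <;> norm_num)
  have h2 : ∑ x ∈ X, (if ((x.1 : ℕ) : ZMod n) ∈ I then (1 : ℝ) else 0) *
      (if ((x.2 : ℕ) : ZMod n) ∈ J then 1 else 0) =
      ((X.filter fun x => ((x.1 : ℕ) : ZMod n) ∈ I ∧ ((x.2 : ℕ) : ZMod n) ∈ J).card : ℝ) := by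
    rw [Finset.card_filter]
    push_cast
    refine Finset.sum_congr rfl fun x _ => ?_
    by_cases hp : ((x.1 : ℕ) : ZMod n) ∈ I <;> by_cases hq : ((x.2 : ℕ) : ZMod n) ∈ J <;>
      simp [hp, hq]
  have h3 : ∑ k : ZMod n, (if k ∈ I + J then (1 : ℝ) else 0) = ((I + J).card : ℝ) := by
    rw [Finset.sum_ite_mem, univ_inter]
    simp
  rw [h2, h3] at h1
  exact_mod_cast h1

theorem sum_val (f : ℕ → ℝ) : ∑ k : ZMod n, f k.val = ∑ k ∈ range n, f k := by
  refine Finset.sum_bij (fun k _ => k.val) (fun k _ => mem_range.2 (ZMod.val_lt k))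
    (fun a _ b _ hab => ZMod.val_injective n hab) (fun b hb => ⟨(b : ZMod n), mem_univ _, ?_⟩)
    (fun _ _ => rfl)
  exact ZMod.val_cast_of_lt (mem_range.1 hb)

theorem pow_sum_le (h : SpecH n X) (t : ℝ) (ht0 : 0 ≤ t) (ht : t ≤ 1) :
    ∑ x ∈ X, t ^ (x.1 + x.2) ≤ ∑ k ∈ range n, t ^ k := by
  have h1 := (h (fun p => t ^ p.val) (fun p => t ^ p.val) (fun p => t ^ p.val)
    (fun p => pow_nonneg ht0 _) (fun p => pow_nonneg ht0 _) (fun p => pow_nonneg ht0 _)).1
    (fun p q => by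
      rw [← pow_add]
      exact pow_le_pow_of_le_one ht0 ht (ZMod.val_add_le p q))
  rw [sum_val (fun k => t ^ k)] at h1
  refine le_trans (Finset.sum_le_sum fun x _ => ?_) h1
  rw [← pow_add, ZMod.val_natCast, ZMod.val_natCast]
  exact pow_le_pow_of_le_one ht0 ht (Nat.add_le_add (Nat.mod_le _ _) (Nat.mod_le _ _))

theorem le_pow_sum (h : SpecH n X) (t : ℝ) (ht : 1 ≤ t) :
    ∑ k ∈ range n, t ^ k ≤ ∑ x ∈ X, t ^ (x.1 + x.2) := by
  have ht0 : 0 ≤ t := zero_le_one.trans ht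
  have h1 := (h (fun p => t ^ p.val) (fun p => t ^ p.val) (fun p => t ^ p.val)
    (fun p => pow_nonneg ht0 _) (fun p => pow_nonneg ht0 _) (fun p => pow_nonneg ht0 _)).2
    (fun p q => by
      rw [← pow_add]
      exact pow_le_pow_right₀ ht (ZMod.val_add_le p q))
  rw [sum_val (fun k => t ^ k)] at h1
  refine h1.trans (Finset.sum_le_sum fun x _ => ?_)
  rw [← pow_add, ZMod.val_natCast, ZMod.val_natCast]
  exact pow_le_pow_right₀ ht (Nat.add_le_add (Nat.mod_le _ _) (Nat.mod_le _ _))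

end Pool.Agent.Helper82.TS
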