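import Pool.Agent.Helper12.TS.St
import Pool.Agent.Helper41.AJ.M_CON

/-!
# Project TS, module THR
-/

set_option autoImplicit false

namespace Pool.Agent.Helper82.TS

open Pool.Agent.Helper12.TS
open Pool.Agent.Helper51.AJ (IsMinor Planar Apex ExMinor Con Tch)
open Pool.Agent.Helper12.NK (rst Kc add)

variable {V : Type}

/-- a criterion for connectedness -/
private theorem con_crit {K : SimpleGraph V} {X : Set V} (u : V) (hu : u ∈ X)
    (h : ∀ Y ⊆ X, Y.Nonempty → u ∉ Y → ∃ x ∈ Y, ∃ z ∈ X, z ∉ Y ∧ K.Adj x z) : Con K X := by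
  refine SimpleGraph.induce_connected_of_patches u hu ?_
  intro v hv
  set Y : Set V := {z | ∃ T ⊆ X, Con K T ∧ v ∈ T ∧ z ∈ T} with hY
  have hYX : Y ⊆ X := by
    rintro z ⟨T, hT, _, _, hz⟩
    exact hT hz
  by_cases huY : u ∈ Y
  · obtain ⟨T, hT, hc, hvT, huT⟩ := huY
    exact ⟨T, hT, huT, hvT, hc.preconnected _ _⟩
  · exfalso
    obtain ⟨x, ⟨T, hT, hc, hvT, hxT⟩, z, hzX, hzY, hxz⟩ := h Y hYX
      ⟨v, {v}, Set.singleton_subset_iff.2 hv, Pool.Agent.Helper51.AJ.con_singleton K v, rfl, rfl⟩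
      huY
    exact hzY ⟨T ∪ {z}, Set.union_subset hT (Set.singleton_subset_iff.2 hzX),
      Pool.Agent.Helper51.AJ.con_union hc (Pool.Agent.Helper51.AJ.con_singleton K z)
        ⟨x, hxT, z, rfl, hxz⟩, Or.inl hvT, Or.inr rfl⟩

private theorem con_le {H K : SimpleGraph V} {X : Set V} (h : Con H X)
    (hHK : ∀ x ∈ X, ∀ z ∈ X, H.Adj x z → K.Adj x z) : Con K X := by
  refine SimpleGraph.Connected.mono ?_ h
  intro a b hab
  exact hHK a.1 a.2 b.1 b.2 hab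

variable {H : SimpleGraph V} {C S : Set V}

private theorem meets [Finite V] (hcl : ∀ x ∈ C, ∀ z, z ∉ S → H.Adj x z → z ∈ C) {Φ : Set V}
    (hΦ : Con H Φ) (hS : ¬ (Φ ∩ S).Nonempty) (hC : (Φ ∩ C).Nonempty) : Φ ⊆ C := by
  by_contra hn
  have hne : Φ ∩ C ≠ Φ := fun he => hn (he ▸ Set.inter_subset_right)
  obtain ⟨x, hx, y, hy, hxy⟩ := (Pool.Agent.Helper41.AJ.hCON V H Φ hΦ).1 (Φ ∩ C)
    Set.inter_subset_left hC hne
  exact hy.2 ⟨hy.1, hcl x hx.2 y (fun hyS => hS ⟨y, hy.1, hyS⟩) hxy⟩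

private theorem leave [Finite V] {K : SimpleGraph V}
    (hcl : ∀ x ∈ C, ∀ z, z ∉ S → H.Adj x z → z ∈ C)
    (hK : ∀ x z, H.Adj x z → x ∉ C → z ∉ C → K.Adj x z) {Φ : Set V} (hΦ : Con H Φ) {s : V}
    (hs : s ∈ Φ) (hsC : s ∉ C) (hΦS : ∀ x ∈ Φ, x ∈ S → x = s) : Con K (Φ \ C) := by
  refine con_crit s ⟨hs, hsC⟩ ?_
  intro Y hY hYn hsY
  have hne : Y ≠ Φ := fun e => hsY (e ▸ hs)
  obtain ⟨x, hx, z, hz, hxz⟩ := (Pool.Agent.Helper41.AJ.hCON V H Φ hΦ).1 Y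
    (hY.trans Set.sdiff_subset) hYn hne
  have hxS : x ∉ S := fun hxS => hsY ((hΦS x (hY hx).1 hxS) ▸ hx)
  have hzC : z ∉ C := fun hzC => (hY hx).2 (hcl z hzC x hxS hxz.symm)
  exact ⟨x, hx, z, ⟨hz.1, hzC⟩, hz.2, hK x z hxz (hY hx).2 hzC⟩

private theorem enter [Finite V] {K : SimpleGraph V}
    (hcl : ∀ x ∈ C, ∀ z, z ∉ S → H.Adj x z → z ∈ C)
    (hK : ∀ x z, H.Adj x z → x ∈ C ∪ S → z ∈ C ∪ S → K.Adj x z) {Φ : Set V} (hΦ : Con H Φ) {s : V}
    (hs : s ∈ Φ) (hsS : s ∈ S) (hΦS : ∀ x ∈ Φ, x ∈ S → x = s) : Con K (Φ ∩ (C ∪ S)) := by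
  refine con_crit s ⟨hs, Or.inr hsS⟩ ?_
  intro Y hY hYn hsY
  have hne : Y ≠ Φ := fun e => hsY (e ▸ hs)
  obtain ⟨x, hx, z, hz, hxz⟩ := (Pool.Agent.Helper41.AJ.hCON V H Φ hΦ).1 Y
    (hY.trans Set.inter_subset_left) hYn hne
  have hxS : x ∉ S := fun hxS => hsY ((hΦS x (hY hx).1 hxS) ▸ hx)
  have hxC : x ∈ C := (hY hx).2.resolve_right hxS
  have hzCS : z ∈ C ∪ S := by
    by_cases hzS : z ∈ S
    · exact Or.inr hzS
    · exact Or.inl (hcl x hxC z hzS hxz)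
  exact ⟨x, hx, z, ⟨hz.1, hzCS⟩, hz.2, hK x z hxz (hY hx).2 hzCS⟩

private theorem third : ∀ i j : Fin 3, i ≠ j → ∃ k : Fin 3, k ≠ i ∧ k ≠ j := by decide

private theorem core [Finite V] (hTHC : StTHC) (y : V) (h3 : S.ncard = 3) (dCS : Disjoint C S)
    (cC : Con H C) (hcl : ∀ x ∈ C, ∀ z, z ∉ S → H.Adj x z → z ∈ C) (hy : y ∈ C)
    (p1 : Planar (rst H (C ∪ S) ⊔ cl S)) (p2 : Planar (add (rst H Cᶜ) y S))
    (A B : Fin 3 → Set V) (cA : ∀ i, Con H (A i)) (cB : ∀ i, Con H (B i))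
    (dA : ∀ i j, i ≠ j → Disjoint (A i) (A j)) (dB : ∀ i j, i ≠ j → Disjoint (B i) (B j))
    (dAB : ∀ i j, Disjoint (A i) (B j)) (tAB : ∀ i j, Tch H (A i) (B j)) (i j : Fin 3)
    (hi : A i ⊆ C) (hjC : ∀ x ∈ A j, x ∉ C) (hjS : ¬ (A j ∩ S).Nonempty) : False := by
  have hij : i ≠ j := by
    rintro rfl
    obtain ⟨x, hx⟩ := Pool.Agent.Helper51.AJ.con_nonempty (cA i)
    exact hjC x hx (hi hx)
  have hjS' : ∀ x ∈ A j, x ∉ S := fun x hx hxS => hjS ⟨x, hx, hxS⟩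
  -- every `B t` meets `S`
  have hBS : ∀ t, (B t ∩ S).Nonempty := by
    intro t
    by_contra hn
    obtain ⟨x, hx, z, hz, hxz⟩ := tAB i t
    have hzC : z ∈ C := hcl x (hi hx) z (fun hzS => hn ⟨z, hz, hzS⟩) hxz
    have hBC : B t ⊆ C := meets hcl (cB t) hn ⟨z, hz, hzC⟩
    obtain ⟨x', hx', z', hz', hxz'⟩ := tAB j t
    exact hjC x' hx' (hcl z' (hBC hz') x' (hjS' x' hx') hxz'.symm)
  choose s hs using hBS
  have sinj : ∀ a b, a ≠ b → s a ≠ s b := fun a b hab he =>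
    Set.disjoint_left.1 (dB a b hab) (hs a).1 (he ▸ (hs b).1)
  have hS : S = Set.range s := by
    symm
    apply Set.eq_of_subset_of_ncard_le
    · rintro _ ⟨t, rfl⟩
      exact (hs t).2
    · rw [h3, Set.ncard_range_of_injective (fun a b he => by
        by_contra hab
        exact sinj a b hab he)]
      simp
    · exact Set.toFinite S
  have hBS' : ∀ t, ∀ x ∈ B t, x ∈ S → x = s t := by
    intro t x hx hxS
    rw [hS] at hxS
    obtain ⟨t', rfl⟩ := hxS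
    by_contra hne
    have htt : t ≠ t' := fun e => hne (e ▸ rfl)
    exact Set.disjoint_left.1 (dB t t' htt) hx (hs t').1
  have hAS : ∀ k, ∀ x ∈ A k, x ∉ S := by
    intro k x hx hxS
    rw [hS] at hxS
    obtain ⟨t', rfl⟩ := hxS
    exact Set.disjoint_left.1 (dAB k t') hx (hs t').1
  have hsC : ∀ t, s t ∉ C := fun t hc => Set.disjoint_left.1 dCS hc (hs t).2
  obtain ⟨k, hki, hkj⟩ := third i j hij
  by_cases hkC : (A k ∩ C).Nonempty
  · -- `A k ⊆ C`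
    have hk : A k ⊆ C := meets hcl (cA k) (fun ⟨x, hx, hxS⟩ => hAS k x hx hxS) hkC
    have hK : ∀ x z, H.Adj x z → x ∈ C ∪ S → z ∈ C ∪ S → (rst H (C ∪ S) ⊔ cl S).Adj x z :=
      fun x z h hx hz => Or.inl ⟨h, hx, hz⟩
    have hle : ∀ X ⊆ C, Con H X → Con (rst H (C ∪ S) ⊔ cl S) X := fun X hX hc =>
      con_le hc fun x hx z hz h => hK x z h (Or.inl (hX hx)) (Or.inl (hX hz))
    have htch : ∀ m, A m ⊆ C → ∀ t, Tch (rst H (C ∪ S) ⊔ cl S) (A m) (B t ∩ (C ∪ S)) := by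
      intro m hm t
      obtain ⟨x, hx, z, hz, hxz⟩ := tAB m t
      have hzCS : z ∈ C ∪ S := by
        by_cases hzS : z ∈ S
        · exact Or.inr hzS
        · exact Or.inl (hcl x (hm hx) z hzS hxz)
      exact ⟨x, hx, z, ⟨hz, hzCS⟩, hK x z hxz (Or.inl (hm hx)) hzCS⟩
    refine hTHC V (rst H (C ∪ S) ⊔ cl S) C s (A i) (A k) (fun t => B t ∩ (C ∪ S))
      (hle C le_rfl cC) hsC ?_ hi hk (hle _ hi (cA i)) (hle _ hk (cA k)) (dA i k hki.symm) ?_ ?_ p1
    · intro a b hab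
      exact Or.inr ⟨sinj a b hab, (hs a).2, (hs b).2⟩
    · intro t
      refine ⟨enter hcl hK (cB t) (hs t).1 (hs t).2 (hBS' t), ⟨(hs t).1, Or.inr (hs t).2⟩, ?_, ?_,
        ?_, htch i hi t, htch k hk t⟩
      · rintro x ⟨hx, hxC | hxS⟩
        · exact Or.inr hxC
        · exact Or.inl (hBS' t x hx hxS)
      · exact ((dAB i t).symm).mono_left Set.inter_subset_left
      · exact ((dAB k t).symm).mono_left Set.inter_subset_left
    · intro a b hab
      exact (dB a b hab).mono Set.inter_subset_left Set.inter_subset_left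
  · -- `A k` is outside `C`
    have hkC' : ∀ x ∈ A k, x ∉ C := fun x hx hxC => hkC ⟨x, hx, hxC⟩
    have hK : ∀ x z, H.Adj x z → x ∉ C → z ∉ C → (add (rst H Cᶜ) y S).Adj x z :=
      fun x z h hx hz => Or.inl ⟨h, hx, hz⟩
    have hle : ∀ X : Set V, (∀ x ∈ X, x ∉ C) → Con H X → Con (add (rst H Cᶜ) y S) X :=
      fun X hX hc => con_le hc fun x hx z hz h => hK x z h (hX x hx) (hX z hz)
    have htch : ∀ m, (∀ x ∈ A m, x ∉ C) → ∀ t, Tch (add (rst H Cᶜ) y S) (A m) (B t \ C) := by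
      intro m hm t
      obtain ⟨x, hx, z, hz, hxz⟩ := tAB m t
      have hzC : z ∉ C := fun hzC => hm x hx (hcl z hzC x (hAS m x hx) hxz.symm)
      exact ⟨x, hx, z, ⟨hz, hzC⟩, hK x z hxz (hm x hx) hzC⟩
    apply p2.2
    set a : Fin 3 → Set V := ![{y}, A j, A k] with ha
    have acon : ∀ m, Con (add (rst H Cᶜ) y S) (a m) := by
      intro m
      fin_cases m
      · exact Pool.Agent.Helper51.AJ.con_singleton _ y
      · exact hle _ hjC (cA j)
      · exact hle _ hkC' (cA k)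
    have dy : ∀ X : Set V, (∀ x ∈ X, x ∉ C) → Disjoint {y} X := by
      intro X hX
      rw [Set.disjoint_singleton_left]
      exact fun hyX => hX y hyX hy
    have adis : ∀ m n, m ≠ n → Disjoint (a m) (a n) := by
      intro m n hmn
      fin_cases m <;> fin_cases n <;>
        first
          | exact absurd rfl hmn
          | exact dy _ hjC
          | exact dy _ hkC'
          | exact (dy _ hjC).symm
          | exact (dy _ hkC').symm
          | exact dA _ _ hkj.symm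
          | exact dA _ _ hkj
    have abdis : ∀ m t, Disjoint (a m) (B t \ C) := by
      intro m t
      fin_cases m
      · exact dy _ fun x hx => hx.2
      · exact (dAB j t).mono_right Set.sdiff_subset
      · exact (dAB k t).mono_right Set.sdiff_subset
    have abt : ∀ m t, Tch (add (rst H Cᶜ) y S) (a m) (B t \ C) := by
      intro m t
      fin_cases m
      · have hne : s t ≠ y := fun e => hsC t (e ▸ hy)
        exact ⟨y, rfl, s t, ⟨(hs t).1, hsC t⟩, Or.inr (Or.inl ⟨rfl, (hs t).2, hne⟩)⟩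
      · exact htch j hjC t
      · exact htch k hkC' t
    refine ⟨Sum.elim a (fun t => B t \ C), ?_, ?_, ?_⟩
    · rintro (m | t)
      · exact acon m
      · exact leave hcl hK (cB t) (hs t).1 (hsC t) (hBS' t)
    · rintro (m | t) (n | t') hne
      · exact adis m n fun e => hne (congrArg Sum.inl e)
      · exact abdis m t'
      · exact (abdis n t).symm
      · exact (dB t t' fun e => hne (congrArg Sum.inr e)).mono Set.sdiff_subset Set.sdiff_subset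
    · rintro (m | t) (n | t') hadj
      · exact absurd hadj (by simp)
      · exact abt m t'
      · exact Pool.Agent.Helper51.AJ.tch_symm (abt n t)
      · exact absurd hadj (by simp)

theorem hTHR (hPTN : StPTN) (hRSM : StRSM) (hYMD : StYMD) (hTHC : StTHC) : StTHR := by
  intro V _ H C S y h3 dCS cC hcl hy p1 p2
  by_contra hnp
  have hmod := hPTN.2.2.2.2.1 V H hnp
  -- some branch set is contained in `C`
  have step1 : ∀ (P : Prop), ((∃ φ, Md K5 H φ ∧ ∀ w, ¬ φ w ⊆ C) ∨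
      (∃ φ, Md K33 H φ ∧ ∀ w, ¬ φ w ⊆ C)) → P := by
    intro P hm
    exfalso
    refine hYMD V H (add (rst H Cᶜ) y S) C S {y} h3 dCS hcl ?_
      (Pool.Agent.Helper51.AJ.con_singleton _ y) ?_ ?_ ?_ hm p2
    · intro x z hxz hx hz _
      exact Or.inl ⟨hxz, hx, hz⟩
    · rw [Set.disjoint_singleton_left]
      exact fun hyS => Set.disjoint_left.1 dCS hy hyS
    · rintro x rfl
      exact Or.inl hy
    · intro s hs
      have hne : s ≠ y := fun e => Set.disjoint_left.1 dCS hy (e ▸ hs)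
      exact ⟨s, rfl, y, rfl, Or.inr (Or.inr ⟨rfl, hs, hne⟩)⟩
  -- two branch sets
  have step2 : ∀ {ι : Type} (Γ : SimpleGraph ι) (φ : ι → Set V), Md Γ H φ →
      ¬ (∀ w, ¬ φ w ⊆ C) → ¬ IsMinor Γ (rst H (C ∪ S) ⊔ cl S) →
      ∃ w₀ w₁, w₀ ≠ w₁ ∧ ¬ Γ.Adj w₀ w₁ ∧ φ w₀ ⊆ C ∧ (∀ x ∈ φ w₁, x ∉ C) ∧
        ¬ (φ w₁ ∩ S).Nonempty := by
    intro ι Γ φ hφ h0 hmin
    push Not at h0
    obtain ⟨w₀, hw₀⟩ := h0
    by_contra hcon
    apply hmin
    refine ⟨_, hRSM V ι Γ H φ C S hφ dCS hcl ?_⟩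
    intro w
    by_contra hw
    push Not at hw
    have hwS : ¬ (φ w ∩ S).Nonempty := by
      rw [Set.not_nonempty_iff_eq_empty]
      exact hw.2
    have hwC : ∀ x ∈ φ w, x ∉ C := fun x hx hxC =>
      hw.1 (meets hcl (hφ.1 w) hwS ⟨x, hx, hxC⟩)
    have hne : w₀ ≠ w := by
      rintro rfl
      exact hw.1 hw₀
    refine hcon ⟨w₀, w, hne, ?_, hw₀, hwC, hwS⟩
    intro hadj
    obtain ⟨x, hx, z, hz, hxz⟩ := hφ.2.2 w₀ w hadj
    exact hwC z hz (hcl x (hw₀ hx) z (fun hzS => hwS ⟨z, hz, hzS⟩) hxz)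
  rcases hmod with ⟨φ, hφ⟩ | ⟨φ, hφ⟩
  · by_cases h0 : ∀ w, ¬ φ w ⊆ C
    · exact step1 False (Or.inl ⟨φ, hφ, h0⟩)
    · obtain ⟨w₀, w₁, hne, hadj, -⟩ := step2 K5 φ hφ h0 p1.1
      exact hadj hne
  · by_cases h0 : ∀ w, ¬ φ w ⊆ C
    · exact step1 False (Or.inr ⟨φ, hφ, h0⟩)
    · obtain ⟨w₀, w₁, hne, hadj, hw₀, hw₁C, hw₁S⟩ := step2 K33 φ hφ h0 p1.2
      have e1 : ∀ i j : Fin 3, K33.Adj (Sum.inl i) (Sum.inr j) := fun i j => by simp
      have e2 : ∀ i j : Fin 3, K33.Adj (Sum.inr i) (Sum.inl j) := fun i j => by simp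
      rcases w₀ with i | i <;> rcases w₁ with j | j
      · exact core hTHC y h3 dCS cC hcl hy p1 p2 (fun i => φ (Sum.inl i)) (fun i => φ (Sum.inr i))
          (fun i => hφ.1 _) (fun i => hφ.1 _)
          (fun i j hij => hφ.2.1 _ _ fun e => hij (Sum.inl_injective e))
          (fun i j hij => hφ.2.1 _ _ fun e => hij (Sum.inr_injective e))
          (fun i j => hφ.2.1 _ _ (by simp)) (fun i j => hφ.2.2 _ _ (e1 i j)) i j hw₀ hw₁C hw₁S
      · exact hadj (e1 i j)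
      · exact hadj (e2 i j)
      · exact core hTHC y h3 dCS cC hcl hy p1 p2 (fun i => φ (Sum.inr i)) (fun i => φ (Sum.inl i))
          (fun i => hφ.1 _) (fun i => hφ.1 _)
          (fun i j hij => hφ.2.1 _ _ fun e => hij (Sum.inr_injective e))
          (fun i j hij => hφ.2.1 _ _ fun e => hij (Sum.inl_injective e))
          (fun i j => hφ.2.1 _ _ (by simp)) (fun i j => hφ.2.2 _ _ (e2 i j)) i j hw₀ hw₁C hw₁S

end Pool.Agent.Helper82.TS
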