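import Pool.Agent.Helper12.TS.St
import Pool.Agent.Helper41.AJ.M_CON

/-!
# Project TS, module YMD
-/

set_option autoImplicit false

namespace Pool.Agent.Helper82.TS

open Pool.Agent.Helper12.TS
open Pool.Agent.Helper51.AJ (IsMinor Planar Apex ExMinor Con Tch)
open Pool.Agent.Helper12.NK (rst Kc add)

variable {V ι : Type}

private theorem con_patch {K : SimpleGraph V} {X : Set V} (u : V) (hu : u ∈ X)
    (h : ∀ v ∈ X, ∃ T ⊆ X, Con K T ∧ u ∈ T ∧ v ∈ T) : Con K X := by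
  refine SimpleGraph.induce_connected_of_patches u hu ?_
  intro v hv
  obtain ⟨T, hT, hc, hu', hv'⟩ := h v hv
  exact ⟨T, hT, hu', hv', hc.preconnected _ _⟩

private theorem con_ext {K : SimpleGraph V} {T : Set V} {x y : V} (hT : Con K T) (hx : x ∈ T)
    (h : K.Adj x y) : Con K (T ∪ {y}) :=
  Pool.Agent.Helper51.AJ.con_union hT (Pool.Agent.Helper51.AJ.con_singleton K y)
    ⟨x, hx, y, rfl, h⟩

/-- the hypotheses of the module, for a fixed graph `Γ` and a fixed model -/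
private structure Hyp (Γ : SimpleGraph ι) (H K : SimpleGraph V) (C S P : Set V)
    (φ : ι → Set V) : Prop where
  dCS : Disjoint C S
  cl : ∀ x ∈ C, ∀ y, y ∉ S → H.Adj x y → y ∈ C
  ed : ∀ x y, H.Adj x y → x ∉ C → y ∉ C → ¬ (x ∈ S ∧ y ∈ S) → K.Adj x y
  cP : Con K P
  dPS : Disjoint P S
  iP : ∀ x ∈ P, x ∈ C ∨ ∀ y, ¬ H.Adj x y
  tP : ∀ s ∈ S, Tch K {s} P
  md : Md Γ H φ
  nC : ∀ w, ¬ φ w ⊆ C
  nb : ∀ w, ∃ w', Γ.Adj w w'

variable {Γ : SimpleGraph ι} {H K : SimpleGraph V} {C S P : Set V} {φ : ι → Set V}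

private theorem Hyp.f1 [Finite V] (h : Hyp Γ H K C S P φ) (w : ι) (hw : (φ w ∩ C).Nonempty) :
    (φ w ∩ S).Nonempty := by
  by_contra hS
  have hne : φ w ∩ C ≠ φ w := by
    intro he
    exact h.nC w (he ▸ Set.inter_subset_right)
  obtain ⟨x, hx, y, hy, hxy⟩ := (Pool.Agent.Helper41.AJ.hCON V H (φ w) (h.md.1 w)).1 (φ w ∩ C)
    Set.inter_subset_left hw hne
  have hyS : y ∉ S := fun hyS => hS ⟨y, hy.1, hyS⟩
  exact hy.2 ⟨hy.1, h.cl x hx.2 y hyS hxy⟩

private theorem Hyp.f2 [Finite V] (h : Hyp Γ H K C S P φ) (w : ι) (x : V) (hx : x ∈ φ w \ C) :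
    (∃ T ⊆ φ w \ C, Con K T ∧ x ∈ T ∧ (T ∩ S).Nonempty) ∨
      (Con K (φ w \ C) ∧ ¬ (φ w ∩ S).Nonempty) := by
  set X : Set V := {z | ∃ T ⊆ φ w \ C, Con K T ∧ x ∈ T ∧ z ∈ T} with hX
  by_cases hXS : (X ∩ S).Nonempty
  · obtain ⟨z, ⟨T, hT, hc, hxT, hzT⟩, hzS⟩ := hXS
    exact Or.inl ⟨T, hT, hc, hxT, z, hzT, hzS⟩
  · right
    have hXB : X ⊆ φ w \ C := by
      rintro z ⟨T, hT, _, _, hz⟩
      exact hT hz
    have hxX : x ∈ X := ⟨{x}, Set.singleton_subset_iff.2 hx,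
      Pool.Agent.Helper51.AJ.con_singleton K x, rfl, rfl⟩
    have hXw : X = φ w := by
      by_contra hne
      obtain ⟨x', hx', y, hy, hxy⟩ := (Pool.Agent.Helper41.AJ.hCON V H (φ w) (h.md.1 w)).1 X
        (hXB.trans Set.sdiff_subset) ⟨x, hxX⟩ hne
      have hx'C : x' ∉ C := (hXB hx').2
      have hx'S : x' ∉ S := fun hs => hXS ⟨x', hx', hs⟩
      have hyC : y ∉ C := fun hyC => hx'C (h.cl y hyC x' hx'S hxy.symm)
      have hK : K.Adj x' y := h.ed x' y hxy hx'C hyC fun hh => hx'S hh.1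
      obtain ⟨T, hT, hc, hxT, hx'T⟩ := hx'
      exact hy.2 ⟨T ∪ {y}, Set.union_subset hT (Set.singleton_subset_iff.2 ⟨hy.1, hyC⟩),
        con_ext hc hx'T hK, Or.inl hxT, Or.inr rfl⟩
    have hBX : φ w \ C ⊆ X := by rw [hXw]; exact Set.sdiff_subset
    refine ⟨con_patch x hx fun v hv => hBX hv, ?_⟩
    rintro ⟨s, hs, hsS⟩
    exact hXS ⟨s, hXw ▸ hs, hsS⟩

private theorem Hyp.f2a [Finite V] (h : Hyp Γ H K C S P φ) (w : ι)
    (hw : (φ w ∩ S).Subsingleton) : Con K (φ w \ C) := by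
  obtain ⟨x, hx1, hx2⟩ := Set.not_subset.1 (h.nC w)
  rcases h.f2 w x ⟨hx1, hx2⟩ with ⟨T, hT, _, _, s, hsT, hsS⟩ | h'
  · have hs : s ∈ φ w \ C := hT hsT
    refine con_patch s hs fun v hv => ?_
    rcases h.f2 w v hv with ⟨T', hT', hc', hvT', s', hs'T, hs'S⟩ | h'
    · have e : s' = s := hw ⟨(hT' hs'T).1, hs'S⟩ ⟨hs.1, hsS⟩
      exact ⟨T', hT', hc', e ▸ hs'T, hvT'⟩
    · exact absurd ⟨s, hs.1, hsS⟩ h'.2
  · exact h'.1

private theorem Hyp.f2b [Finite V] (h : Hyp Γ H K C S P φ) (w : ι)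
    (hw : (φ w ∩ S).Nonempty) : Con K ((φ w \ C) ∪ P) := by
  obtain ⟨p, hp⟩ := Pool.Agent.Helper51.AJ.con_nonempty h.cP
  refine con_patch p (Or.inr hp) fun v hv => ?_
  rcases hv with hv | hv
  · rcases h.f2 w v hv with ⟨T, hT, hc, hvT, s, hsT, hsS⟩ | h'
    · refine ⟨T ∪ P, Set.union_subset_union_left P hT,
        Pool.Agent.Helper51.AJ.con_union hc h.cP ?_, Or.inr hp, Or.inl hvT⟩
      exact Pool.Agent.Helper51.AJ.tch_mono (h.tP s hsS) (Set.singleton_subset_iff.2 hsT) le_rfl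
    · exact absurd hw h'.2
  · exact ⟨P, Set.subset_union_right, h.cP, hp, hv⟩

private theorem Hyp.f0 [Finite V] (h : Hyp Γ H K C S P φ) (w : ι) : Disjoint P (φ w \ C) := by
  rw [Set.disjoint_left]
  intro x hxP hx
  rcases h.iP x hxP with hxC | hn
  · exact hx.2 hxC
  · by_cases he : φ w = {x}
    · obtain ⟨w', hw'⟩ := h.nb w
      obtain ⟨a, ha, b, _, hab⟩ := h.md.2.2 w w' hw'
      rw [he] at ha
      have ha' : a = x := ha
      rw [ha'] at hab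
      exact hn b hab
    · obtain ⟨a, ha, b, _, hab⟩ := (Pool.Agent.Helper41.AJ.hCON V H (φ w) (h.md.1 w)).1 {x}
        (Set.singleton_subset_iff.2 hx.1) ⟨x, rfl⟩ (fun e => he e.symm)
      have ha' : a = x := ha
      rw [ha'] at hab
      exact hn b hab

private theorem Hyp.f3 [Finite V] (h : Hyp Γ H K C S P φ) {w u : ι} (hwu : Γ.Adj w u)
    (hn : ¬ ((φ w ∩ S).Nonempty ∧ (φ u ∩ S).Nonempty)) : Tch K (φ w \ C) (φ u \ C) := by
  obtain ⟨x, hx, y, hy, hxy⟩ := h.md.2.2 w u hwu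
  have key : ∀ {w u : ι} {x y : V}, x ∈ φ w → y ∈ φ u → H.Adj x y → x ∈ C →
      (φ w ∩ S).Nonempty ∧ (φ u ∩ S).Nonempty := by
    intro w u x y hx hy hxy hxC
    refine ⟨h.f1 w ⟨x, hx, hxC⟩, ?_⟩
    by_cases hyS : y ∈ S
    · exact ⟨y, hy, hyS⟩
    · exact h.f1 u ⟨y, hy, h.cl x hxC y hyS hxy⟩
  have hxC : x ∉ C := fun hxC => hn (key hx hy hxy hxC)
  have hyC : y ∉ C := fun hyC => hn (key hy hx hxy.symm hyC).symm
  exact ⟨x, ⟨hx, hxC⟩, y, ⟨hy, hyC⟩,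
    h.ed x y hxy hxC hyC fun hh => hn ⟨⟨x, hx, hh.1⟩, ⟨y, hy, hh.2⟩⟩⟩

private theorem Hyp.f3' (h : Hyp Γ H K C S P φ) {u : ι} (hu : (φ u ∩ S).Nonempty) :
    Tch K P (φ u \ C) := by
  obtain ⟨s, hs, hsS⟩ := hu
  have hsC : s ∉ C := fun hc => Set.disjoint_left.1 h.dCS hc hsS
  exact Pool.Agent.Helper51.AJ.tch_symm (Pool.Agent.Helper51.AJ.tch_mono (h.tP s hsS)
    (Set.singleton_subset_iff.2 ⟨hs, hsC⟩) le_rfl)

private theorem Hyp.dB (h : Hyp Γ H K C S P φ) {w u : ι} (hwu : w ≠ u) :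
    Disjoint (φ w \ C) (φ u \ C) :=
  (h.md.2.1 w u hwu).mono Set.sdiff_subset Set.sdiff_subset

/-- no branch set meets `S` -/
private theorem Hyp.modelB [Finite V] (h : Hyp Γ H K C S P φ) (h0 : ∀ w, ¬ (φ w ∩ S).Nonempty) :
    IsMinor Γ K := by
  refine ⟨fun w => φ w \ C, fun w => h.f2a w ?_, fun w u hwu => h.dB hwu,
    fun w u hwu => h.f3 hwu fun hh => h0 w hh.1⟩
  rw [Set.not_nonempty_iff_eq_empty.1 (h0 w)]
  exact Set.subsingleton_empty

open Classical in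
/-- the main case -/
private theorem Hyp.modelA [Finite V] (h : Hyp Γ H K C S P φ) (w₀ : ι)
    (h0 : (φ w₀ ∩ S).Nonempty) (h1 : ∀ w, w ≠ w₀ → (φ w ∩ S).Subsingleton)
    (h2 : ∀ w u, w ≠ w₀ → u ≠ w₀ → (φ w ∩ S).Nonempty → (φ u ∩ S).Nonempty → ¬ Γ.Adj w u) :
    IsMinor Γ K := by
  have e0 : ∀ w, (if w = w₀ then (φ w \ C) ∪ P else φ w \ C) ⊇ φ w \ C := by
    intro w
    split_ifs
    · exact Set.subset_union_left
    · exact le_rfl
  refine ⟨fun w => if w = w₀ then (φ w \ C) ∪ P else φ w \ C, ?_, ?_, ?_⟩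
  · intro w
    show Con K (if w = w₀ then (φ w \ C) ∪ P else φ w \ C)
    split_ifs with hw
    · exact h.f2b w (hw ▸ h0)
    · exact h.f2a w (h1 w hw)
  · intro w u hwu
    show Disjoint (if w = w₀ then (φ w \ C) ∪ P else φ w \ C)
      (if u = w₀ then (φ u \ C) ∪ P else φ u \ C)
    split_ifs with hw hu hu
    · exact absurd (hw.trans hu.symm) hwu
    · exact Disjoint.union_left (h.dB hwu) (h.f0 u)
    · exact Disjoint.union_right (h.dB hwu) (h.f0 w).symm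
    · exact h.dB hwu
  · intro w u hwu
    show Tch K (if w = w₀ then (φ w \ C) ∪ P else φ w \ C)
      (if u = w₀ then (φ u \ C) ∪ P else φ u \ C)
    by_cases hb : (φ w ∩ S).Nonempty ∧ (φ u ∩ S).Nonempty
    · by_cases hw : w = w₀
      · have hu : u ≠ w₀ := fun hu => Γ.ne_of_adj hwu (hw.trans hu.symm)
        refine Pool.Agent.Helper51.AJ.tch_mono (h.f3' hb.2) ?_ (e0 u)
        rw [if_pos hw]
        exact Set.subset_union_right
      · by_cases hu : u = w₀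
        · refine Pool.Agent.Helper51.AJ.tch_mono
            (Pool.Agent.Helper51.AJ.tch_symm (h.f3' hb.1)) (e0 w) ?_
          rw [if_pos hu]
          exact Set.subset_union_right
        · exact absurd hwu (h2 w u hw hu hb.1 hb.2)
    · exact Pool.Agent.Helper51.AJ.tch_mono (h.f3 hwu hb) (e0 w) (e0 u)

/-- if there is no `w₀` as in `modelA` then three branch sets with one element of `S` each form a
triangle -/
private theorem Hyp.tri [Finite V] (h : Hyp Γ H K C S P φ) (h3 : S.ncard = 3)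
    (hne : ∃ w, (φ w ∩ S).Nonempty)
    (hn : ¬ IsMinor Γ K) : ∃ w₁ w₂ w₃ : ι, Γ.Adj w₁ w₂ ∧ Γ.Adj w₁ w₃ ∧ Γ.Adj w₂ w₃ ∧
      (φ w₁ ∩ S).Nonempty ∧ (φ w₂ ∩ S).Nonempty ∧ (φ w₃ ∩ S).Nonempty ∧
      (∀ w, (φ w ∩ S).Subsingleton) ∧ ∀ w, (φ w ∩ S).Nonempty → w = w₁ ∨ w = w₂ ∨ w = w₃ := by
  have uniq : ∀ {w u : ι} {s : V}, s ∈ φ w → s ∈ φ u → w = u := by
    intro w u s hw hu
    by_contra hwu
    exact Set.disjoint_left.1 (h.md.2.1 w u hwu) hw hu
  -- all intersections are subsingletons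
  have hsub : ∀ w, (φ w ∩ S).Subsingleton := by
    intro w₀
    by_contra hns
    rw [Set.not_subsingleton_iff] at hns
    obtain ⟨s, hs, s', hs', hss⟩ := hns
    have hcard : (S \ {s, s'}).ncard = 1 := by
      rw [Set.ncard_sdiff (by
        intro z hz
        rcases hz with rfl | hz
        · exact hs.2
        · rw [Set.mem_singleton_iff] at hz
          rw [hz]; exact hs'.2), h3, Set.ncard_pair hss]
    obtain ⟨t, ht⟩ := Set.ncard_eq_one.1 hcard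
    have hsubt : ∀ w, w ≠ w₀ → φ w ∩ S ⊆ {t} := by
      intro w hw z hz
      rw [← ht]
      refine ⟨hz.2, ?_⟩
      rintro (rfl | hz')
      · exact hw (uniq hz.1 hs.1)
      · rw [Set.mem_singleton_iff] at hz'
        subst hz'
        exact hw (uniq hz.1 hs'.1)
    apply hn
    refine h.modelA w₀ ⟨s, hs⟩ (fun w hw => Set.subsingleton_singleton.anti (hsubt w hw)) ?_
    intro w u hw hu hwS huS hwu
    obtain ⟨a, ha⟩ := hwS
    obtain ⟨b, hb⟩ := huS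
    have ea : a = t := hsubt w hw ha
    have eb : b = t := hsubt u hu hb
    subst ea
    subst eb
    exact Γ.ne_of_adj hwu (uniq ha.1 hb.1)
  -- for every `w₀` meeting `S` two others are adjacent
  have htwo : ∀ w₀, (φ w₀ ∩ S).Nonempty → ∃ w u, w ≠ w₀ ∧ u ≠ w₀ ∧ (φ w ∩ S).Nonempty ∧
      (φ u ∩ S).Nonempty ∧ Γ.Adj w u := by
    intro w₀ hw₀
    by_contra hcon
    apply hn
    refine h.modelA w₀ hw₀ (fun w _ => hsub w) ?_
    intro w u hw hu hwS huS hwu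
    exact hcon ⟨w, u, hw, hu, hwS, huS, hwu⟩
  obtain ⟨w₁, hw₁⟩ := hne
  obtain ⟨w₂, w₃, h21, h31, hw₂, hw₃, h23⟩ := htwo w₁ hw₁
  have h23' : w₂ ≠ w₃ := Γ.ne_of_adj h23
  obtain ⟨s₁, hs₁, hs₁S⟩ := hw₁
  obtain ⟨s₂, hs₂, hs₂S⟩ := hw₂
  obtain ⟨s₃, hs₃, hs₃S⟩ := hw₃
  have n12 : s₁ ≠ s₂ := fun e => h21 (uniq (e ▸ hs₂) hs₁)
  have n13 : s₁ ≠ s₃ := fun e => h31 (uniq (e ▸ hs₃) hs₁)
  have n23 : s₂ ≠ s₃ := fun e => h23' (uniq (e ▸ hs₂) hs₃)
  have hS : ({s₁, s₂, s₃} : Set V) = S := by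
    apply Set.eq_of_subset_of_ncard_le
    · intro z hz
      rcases hz with rfl | rfl | hz
      · exact hs₁S
      · exact hs₂S
      · rw [Set.mem_singleton_iff] at hz
        rw [hz]; exact hs₃S
    · rw [h3, Set.ncard_eq_three.2 ⟨s₁, s₂, s₃, n12, n13, n23, rfl⟩]
    · exact Set.toFinite S
  have hall : ∀ w, (φ w ∩ S).Nonempty → w = w₁ ∨ w = w₂ ∨ w = w₃ := by
    rintro w ⟨z, hz, hzS⟩
    rw [← hS] at hzS
    rcases hzS with rfl | rfl | hz'
    · exact Or.inl (uniq hz hs₁)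
    · exact Or.inr (Or.inl (uniq hz hs₂))
    · rw [Set.mem_singleton_iff] at hz'
      subst hz'
      exact Or.inr (Or.inr (uniq hz hs₃))
  have hw₁' : (φ w₁ ∩ S).Nonempty := ⟨s₁, hs₁, hs₁S⟩
  have hw₂' : (φ w₂ ∩ S).Nonempty := ⟨s₂, hs₂, hs₂S⟩
  have hw₃' : (φ w₃ ∩ S).Nonempty := ⟨s₃, hs₃, hs₃S⟩
  have h13 : Γ.Adj w₁ w₃ := by
    obtain ⟨w, u, hw, hu, hwS, huS, hwu⟩ := htwo w₂ hw₂'
    rcases hall w hwS with rfl | rfl | rfl
    · rcases hall u huS with rfl | rfl | rfl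
      · exact absurd rfl (Γ.ne_of_adj hwu)
      · exact absurd rfl hu
      · exact hwu
    · exact absurd rfl hw
    · rcases hall u huS with rfl | rfl | rfl
      · exact hwu.symm
      · exact absurd rfl hu
      · exact absurd rfl (Γ.ne_of_adj hwu)
  have h12 : Γ.Adj w₁ w₂ := by
    obtain ⟨w, u, hw, hu, hwS, huS, hwu⟩ := htwo w₃ hw₃'
    rcases hall w hwS with rfl | rfl | rfl
    · rcases hall u huS with rfl | rfl | rfl
      · exact absurd rfl (Γ.ne_of_adj hwu)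
      · exact hwu
      · exact absurd rfl hu
    · rcases hall u huS with rfl | rfl | rfl
      · exact hwu.symm
      · exact absurd rfl (Γ.ne_of_adj hwu)
      · exact absurd rfl hu
    · exact absurd rfl hw
  exact ⟨w₁, w₂, w₃, h12, h13, h23, hw₁', hw₂', hw₃', hsub, hall⟩

private theorem fin5 : ∀ a b c : Fin 5, ∃ d e : Fin 5, d ≠ e ∧ d ≠ a ∧ d ≠ b ∧ d ≠ c ∧ e ≠ a ∧
    e ≠ b ∧ e ≠ c := by decide

/-- the last case: a model of `K₃,₃` from a model of `K₅` -/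
private theorem modelC [Finite V] {φ : Fin 5 → Set V} (h : Hyp K5 H K C S P φ) (w₁ w₂ w₃ : Fin 5)
    (h12 : w₁ ≠ w₂) (h13 : w₁ ≠ w₃) (h23 : w₂ ≠ w₃) (hw₁ : (φ w₁ ∩ S).Nonempty)
    (hw₂ : (φ w₂ ∩ S).Nonempty) (hw₃ : (φ w₃ ∩ S).Nonempty) (hsub : ∀ w, (φ w ∩ S).Subsingleton)
    (hall : ∀ w, (φ w ∩ S).Nonempty → w = w₁ ∨ w = w₂ ∨ w = w₃) : IsMinor K33 K := by
  obtain ⟨d, e, hde, d1, d2, d3, e1, e2, e3⟩ := fin5 w₁ w₂ w₃
  have hd : ¬ (φ d ∩ S).Nonempty := fun hh => by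
    rcases hall d hh with h' | h' | h'
    · exact d1 h'
    · exact d2 h'
    · exact d3 h'
  have he : ¬ (φ e ∩ S).Nonempty := fun hh => by
    rcases hall e hh with h' | h' | h'
    · exact e1 h'
    · exact e2 h'
    · exact e3 h'
  set a : Fin 3 → Fin 5 := ![w₁, w₂, w₃] with ha
  have aS : ∀ i, (φ (a i) ∩ S).Nonempty := by
    intro i
    fin_cases i
    · exact hw₁
    · exact hw₂
    · exact hw₃
  have ad : ∀ i, a i ≠ d := by
    intro i
    fin_cases i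
    · exact d1.symm
    · exact d2.symm
    · exact d3.symm
  have ae : ∀ i, a i ≠ e := by
    intro i
    fin_cases i
    · exact e1.symm
    · exact e2.symm
    · exact e3.symm
  have ainj : ∀ i j, i ≠ j → a i ≠ a j := by
    intro i j hij
    fin_cases i <;> fin_cases j <;>
      first
        | exact absurd rfl hij
        | exact h12
        | exact h13
        | exact h23
        | exact h12.symm
        | exact h13.symm
        | exact h23.symm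
  set b : Fin 3 → Set V := ![P, φ d \ C, φ e \ C] with hb
  have bcon : ∀ i, Con K (b i) := by
    intro i
    fin_cases i
    · exact h.cP
    · exact h.f2a d (hsub d)
    · exact h.f2a e (hsub e)
  have bdis : ∀ i j, i ≠ j → Disjoint (b i) (b j) := by
    intro i j hij
    fin_cases i <;> fin_cases j <;>
      first
        | exact absurd rfl hij
        | exact h.f0 d
        | exact h.f0 e
        | exact (h.f0 d).symm
        | exact (h.f0 e).symm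
        | exact h.dB hde
        | exact h.dB hde.symm
  have abdis : ∀ i j, Disjoint (φ (a i) \ C) (b j) := by
    intro i j
    fin_cases j
    · exact (h.f0 (a i)).symm
    · exact h.dB (ad i)
    · exact h.dB (ae i)
  have abt : ∀ i j, Tch K (φ (a i) \ C) (b j) := by
    intro i j
    fin_cases j
    · exact Pool.Agent.Helper51.AJ.tch_symm (h.f3' (aS i))
    · exact h.f3 (w := a i) (u := d) (ad i) fun hh => hd hh.2
    · exact h.f3 (w := a i) (u := e) (ae i) fun hh => he hh.2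
  refine ⟨Sum.elim (fun i => φ (a i) \ C) b, ?_, ?_, ?_⟩
  · rintro (i | i)
    · exact h.f2a (a i) (hsub _)
    · exact bcon i
  · rintro (i | i) (j | j) hij
    · exact h.dB (ainj i j fun e => hij (congrArg Sum.inl e))
    · exact abdis i j
    · exact (abdis j i).symm
    · exact bdis i j fun e => hij (congrArg Sum.inr e)
  · rintro (i | i) (j | j) hij
    · exact absurd hij (by simp)
    · exact abt i j
    · exact Pool.Agent.Helper51.AJ.tch_symm (abt j i)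
    · exact absurd hij (by simp)

theorem hYMD : StYMD := by
  intro V _ H K C S P h3 dCS hcl hed cP dPS iP tP hmod hpl
  rcases hmod with ⟨φ, hφ, hnC⟩ | ⟨φ, hφ, hnC⟩
  · have nb : ∀ w : Fin 5, ∃ w', K5.Adj w w' := by decide
    have h : Hyp K5 H K C S P φ := ⟨dCS, hcl, hed, cP, dPS, iP, tP, hφ, hnC, nb⟩
    by_cases hne : ∃ w, (φ w ∩ S).Nonempty
    · obtain ⟨w₁, w₂, w₃, h12, h13, h23, hw₁, hw₂, hw₃, hsub, hall⟩ := h.tri h3 hne hpl.1
      exact hpl.2 (modelC h w₁ w₂ w₃ (K5.ne_of_adj h12) (K5.ne_of_adj h13) (K5.ne_of_adj h23)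
        hw₁ hw₂ hw₃ hsub hall)
    · exact hpl.1 (h.modelB fun w hw => hne ⟨w, hw⟩)
  · have nb : ∀ w : Fin 3 ⊕ Fin 3, ∃ w', K33.Adj w w' := by
      rintro (w | w)
      · exact ⟨Sum.inr 0, by simp⟩
      · exact ⟨Sum.inl 0, by simp⟩
    have h : Hyp K33 H K C S P φ := ⟨dCS, hcl, hed, cP, dPS, iP, tP, hφ, hnC, nb⟩
    by_cases hne : ∃ w, (φ w ∩ S).Nonempty
    · obtain ⟨w₁, w₂, w₃, h12, h13, h23, -⟩ := h.tri h3 hne hpl.2
      rcases w₁ with w₁ | w₁ <;> rcases w₂ with w₂ | w₂ <;> rcases w₃ with w₃ | w₃ <;>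
        simp_all
    · exact hpl.2 (h.modelB fun w hw => hne ⟨w, hw⟩)

end Pool.Agent.Helper82.TS
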