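import Mathlib

/-!
# Spectral comparison for chains with injective and with surjective labels
-/

set_option autoImplicit false

namespace Pool.Agent.Helper82.TS

open Finset

theorem cmp1 (W G C : ℝ) (hW : 0 ≤ W) (hG : 0 ≤ G) (h : ∀ L : ℕ, W ^ (L + 1) ≤ C * G ^ L) :
    W ≤ G := by
  by_contra hlt
  push Not at hlt
  have hWp : 0 < W := lt_of_le_of_lt hG hlt
  rcases hG.eq_or_lt with h0 | h0
  · have := h 1
    rw [← h0] at this
    have h2 : 0 < W ^ (1 + 1) := by positivity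
    simp at this
    have h3 : W ^ (1 + 1) ≤ 0 := by simpa using this
    linarith
  · obtain ⟨L, hL⟩ := pow_unbounded_of_one_lt (C / W) ((one_lt_div h0).2 hlt)
    have h1 := h L
    rw [div_pow, div_lt_div_iff₀ hWp (pow_pos h0 L)] at hL
    rw [pow_succ] at h1
    linarith

theorem cmp2 (W G c : ℝ) (hW : 0 ≤ W) (hG : 0 ≤ G) (hc : 0 < c)
    (h : ∀ L : ℕ, c * G ^ L ≤ W ^ (L + 1)) : G ≤ W := by
  by_contra hlt
  push Not at hlt
  have hGp : 0 < G := lt_of_le_of_lt hW hlt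
  rcases hW.eq_or_lt with h0 | h0
  · have := h 0
    rw [← h0] at this
    simp at this
    linarith
  · obtain ⟨L, hL⟩ := pow_unbounded_of_one_lt (W / c) ((one_lt_div h0).2 hlt)
    have h1 := h L
    rw [div_pow, div_lt_div_iff₀ hc (pow_pos h0 L)] at hL
    rw [pow_succ] at h1
    linarith

section
variable {n : ℕ} [NeZero n] {X : Finset (ℕ × ℕ)}

/-- the label of a chain -/
def lab (L : ℕ) (x : Fin (L + 1) → X) (l : Fin L) : ZMod n :=
  (((x l.castSucc).1.2 : ℕ) : ZMod n) + (((x l.succ).1.1 : ℕ) : ZMod n)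

theorem low (g : ZMod n → ℝ) (hg : ∀ k, 0 ≤ g k)
    (hL : ∀ (L : ℕ) (k : Fin L → ZMod n), ∃ x : Fin (L + 1) → ℕ × ℕ, (∀ l, x l ∈ X) ∧
      ∀ l : Fin L, (((x l.castSucc).2 : ℕ) : ZMod n) + (((x l.succ).1 : ℕ) : ZMod n) = k l)
    (L : ℕ) :
    (∑ k, g k) ^ L ≤ ∑ x : Fin (L + 1) → X, ∏ l : Fin L, g (lab L x l) := by
  rw [Fintype.sum_pow]
  have hs : ∀ k : Fin L → ZMod n, ∃ x : Fin (L + 1) → X, lab L x = k := by
    intro k
    obtain ⟨x, hx, hk⟩ := hL L k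
    exact ⟨fun l => ⟨x l, hx l⟩, funext fun l => hk l⟩
  choose sec hsec using hs
  have hinj : Function.Injective sec := fun a b hab => by
    rw [← hsec a, ← hsec b, hab]
  have h1 : ∑ k : Fin L → ZMod n, ∏ l, g (k l) =
      ∑ x ∈ Finset.univ.map ⟨sec, hinj⟩, ∏ l : Fin L, g (lab L x l) := by
    rw [Finset.sum_map]
    refine Finset.sum_congr rfl fun k _ => ?_
    simp only [Function.Embedding.coeFn_mk, hsec k]
  rw [h1]
  exact Finset.sum_le_univ_sum_of_nonneg fun x => Finset.prod_nonneg fun l _ => hg _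

theorem up (g : ZMod n → ℝ) (hg : ∀ k, 0 ≤ g k)
    (hU : ∀ (L : ℕ) (x y : Fin (L + 1) → ℕ × ℕ), (∀ l, x l ∈ X) → (∀ l, y l ∈ X) →
      (((x 0).1 : ℕ) : ZMod n) = (((y 0).1 : ℕ) : ZMod n) →
      (∀ l : Fin L, (((x l.castSucc).2 : ℕ) : ZMod n) + (((x l.succ).1 : ℕ) : ZMod n) =
        (((y l.castSucc).2 : ℕ) : ZMod n) + (((y l.succ).1 : ℕ) : ZMod n)) →
      (((x (Fin.last L)).2 : ℕ) : ZMod n) = (((y (Fin.last L)).2 : ℕ) : ZMod n) → x = y)
    (L : ℕ) :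
    ∑ x : Fin (L + 1) → X, ∏ l : Fin L, g (lab L x l) ≤ (n : ℝ) ^ 2 * (∑ k, g k) ^ L := by
  rw [Fintype.sum_pow]
  let Φ : (Fin (L + 1) → X) → ZMod n × (Fin L → ZMod n) × ZMod n := fun x =>
    ((((x 0).1.1 : ℕ) : ZMod n), lab L x, (((x (Fin.last L)).1.2 : ℕ) : ZMod n))
  have hinj : Function.Injective Φ := by
    intro x y hxy
    have h1 : ((((x 0).1.1 : ℕ) : ZMod n)) = ((((y 0).1.1 : ℕ) : ZMod n)) :=
      congrArg (fun z => z.1) hxy
    have h2 : lab (n := n) L x = lab L y := congrArg (fun z => z.2.1) hxy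
    have h3 : ((((x (Fin.last L)).1.2 : ℕ) : ZMod n)) =
        ((((y (Fin.last L)).1.2 : ℕ) : ZMod n)) := congrArg (fun z => z.2.2) hxy
    have h4 := hU L (fun l => (x l).1) (fun l => (y l).1) (fun l => (x l).2) (fun l => (y l).2)
      h1 (fun l => congrFun h2 l) h3
    funext l
    exact Subtype.ext (congrFun h4 l)
  have h1 : ∑ x : Fin (L + 1) → X, ∏ l : Fin L, g (lab L x l) =
      ∑ z ∈ Finset.univ.map ⟨Φ, hinj⟩, ∏ l : Fin L, g (z.2.1 l) := by
    rw [Finset.sum_map]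
    rfl
  rw [h1]
  refine (Finset.sum_le_univ_sum_of_nonneg fun z =>
    Finset.prod_nonneg fun l _ => hg _).trans (le_of_eq ?_)
  rw [Fintype.sum_prod_type]
  simp only [Fintype.sum_prod_type, Finset.sum_const, Finset.card_univ, ZMod.card, nsmul_eq_mul]
  rw [← Finset.mul_sum]
  ring

theorem chain (u v : ZMod n → ℝ) (L : ℕ) :
    (∑ x ∈ X, u ((x.1 : ℕ) : ZMod n) * v ((x.2 : ℕ) : ZMod n)) ^ (L + 1) =
      ∑ x : Fin (L + 1) → X, (u (((x 0).1.1 : ℕ) : ZMod n) *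
        v (((x (Fin.last L)).1.2 : ℕ) : ZMod n)) *
        ∏ l : Fin L, (v (((x l.castSucc).1.2 : ℕ) : ZMod n) *
          u (((x l.succ).1.1 : ℕ) : ZMod n)) := by
  have h0 : ∑ x ∈ X, u ((x.1 : ℕ) : ZMod n) * v ((x.2 : ℕ) : ZMod n) =
      ∑ x : X, u ((x.1.1 : ℕ) : ZMod n) * v ((x.1.2 : ℕ) : ZMod n) :=
    (Finset.sum_coe_sort X fun x => u ((x.1 : ℕ) : ZMod n) * v ((x.2 : ℕ) : ZMod n)).symm
  rw [h0, Fintype.sum_pow]
  refine Finset.sum_congr rfl fun x _ => ?_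
  rw [Finset.prod_mul_distrib, Finset.prod_mul_distrib, Fin.prod_univ_succ,
    Fin.prod_univ_castSucc (f := fun l => v (((x l).1.2 : ℕ) : ZMod n))]
  ring

end

theorem spec (n : ℕ) [NeZero n] (X : Finset (ℕ × ℕ))
    (hU : ∀ (L : ℕ) (x y : Fin (L + 1) → ℕ × ℕ), (∀ l, x l ∈ X) → (∀ l, y l ∈ X) →
      (((x 0).1 : ℕ) : ZMod n) = (((y 0).1 : ℕ) : ZMod n) →
      (∀ l : Fin L, (((x l.castSucc).2 : ℕ) : ZMod n) + (((x l.succ).1 : ℕ) : ZMod n) =
        (((y l.castSucc).2 : ℕ) : ZMod n) + (((y l.succ).1 : ℕ) : ZMod n)) →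
      (((x (Fin.last L)).2 : ℕ) : ZMod n) = (((y (Fin.last L)).2 : ℕ) : ZMod n) → x = y)
    (hL : ∀ (L : ℕ) (k : Fin L → ZMod n), ∃ x : Fin (L + 1) → ℕ × ℕ, (∀ l, x l ∈ X) ∧
      ∀ l : Fin L, (((x l.castSucc).2 : ℕ) : ZMod n) + (((x l.succ).1 : ℕ) : ZMod n) = k l)
    (u v g : ZMod n → ℝ) (hu : ∀ p, 0 ≤ u p) (hv : ∀ p, 0 ≤ v p) (hg : ∀ k, 0 ≤ g k) :
    ((∀ p q, u p * v q ≤ g (p + q)) →
      ∑ x ∈ X, u ((x.1 : ℕ) : ZMod n) * v ((x.2 : ℕ) : ZMod n) ≤ ∑ k, g k) ∧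
    ((∀ p q, g (p + q) ≤ u p * v q) →
      ∑ k, g k ≤ ∑ x ∈ X, u ((x.1 : ℕ) : ZMod n) * v ((x.2 : ℕ) : ZMod n)) := by
  have hW : 0 ≤ ∑ x ∈ X, u ((x.1 : ℕ) : ZMod n) * v ((x.2 : ℕ) : ZMod n) :=
    Finset.sum_nonneg fun x _ => mul_nonneg (hu _) (hv _)
  have hG : 0 ≤ ∑ k, g k := Finset.sum_nonneg fun k _ => hg k
  constructor
  · intro h
    obtain ⟨p1, hp1⟩ := Finite.exists_max u
    obtain ⟨q1, hq1⟩ := Finite.exists_max v
    refine cmp1 _ _ (u p1 * v q1 * (n : ℝ) ^ 2) hW hG fun L => ?_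
    rw [chain u v L]
    calc _ ≤ ∑ x : Fin (L + 1) → X, (u p1 * v q1) * ∏ l : Fin L, g (lab L x l) := by
          refine Finset.sum_le_sum fun x _ => ?_
          refine mul_le_mul (mul_le_mul (hp1 _) (hq1 _) (hv _) (hu _)) ?_ ?_
            (mul_nonneg (hu _) (hv _))
          · refine Finset.prod_le_prod (fun l _ => mul_nonneg (hv _) (hu _)) fun l _ => ?_
            have := h (((x l.succ).1.1 : ℕ) : ZMod n) (((x l.castSucc).1.2 : ℕ) : ZMod n)
            rw [mul_comm, add_comm] at this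
            exact this
          · exact Finset.prod_nonneg fun l _ => mul_nonneg (hv _) (hu _)
      _ = (u p1 * v q1) * ∑ x : Fin (L + 1) → X, ∏ l : Fin L, g (lab L x l) :=
          (Finset.mul_sum _ _ _).symm
      _ ≤ (u p1 * v q1) * ((n : ℝ) ^ 2 * (∑ k, g k) ^ L) :=
          mul_le_mul_of_nonneg_left (up g hg hU L) (mul_nonneg (hu _) (hv _))
      _ = u p1 * v q1 * (n : ℝ) ^ 2 * (∑ k, g k) ^ L := by ring
  · intro h
    by_cases hz : (∃ p, u p = 0) ∨ ∃ q, v q = 0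
    · have hg0 : ∀ k, g k = 0 := by
        intro k
        refine le_antisymm ?_ (hg k)
        rcases hz with ⟨p, hp⟩ | ⟨q, hq⟩
        · have := h p (k - p)
          rw [hp, zero_mul, add_sub_cancel] at this
          exact this
        · have := h (k - q) q
          rw [hq, mul_zero, sub_add_cancel] at this
          exact this
      simp only [hg0, Finset.sum_const_zero]
      exact hW
    · push Not at hz
      obtain ⟨p1, hp1⟩ := Finite.exists_min u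
      obtain ⟨q1, hq1⟩ := Finite.exists_min v
      have hp0 : 0 < u p1 := lt_of_le_of_ne (hu _) (Ne.symm (hz.1 p1))
      have hq0 : 0 < v q1 := lt_of_le_of_ne (hv _) (Ne.symm (hz.2 q1))
      refine cmp2 _ _ (u p1 * v q1) hW hG (mul_pos hp0 hq0) fun L => ?_
      rw [chain u v L]
      calc (u p1 * v q1) * (∑ k, g k) ^ L ≤
          (u p1 * v q1) * ∑ x : Fin (L + 1) → X, ∏ l : Fin L, g (lab L x l) :=
            mul_le_mul_of_nonneg_left (low g hg hL L) (mul_pos hp0 hq0).le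
        _ = ∑ x : Fin (L + 1) → X, (u p1 * v q1) * ∏ l : Fin L, g (lab L x l) :=
            Finset.mul_sum _ _ _
        _ ≤ _ := by
          refine Finset.sum_le_sum fun x _ => ?_
          refine mul_le_mul (mul_le_mul (hp1 _) (hq1 _) hq0.le (hu _)) ?_ ?_
            (mul_nonneg (hu _) (hv _))
          · refine Finset.prod_le_prod (fun l _ => hg _) fun l _ => ?_
            have := h (((x l.succ).1.1 : ℕ) : ZMod n) (((x l.castSucc).1.2 : ℕ) : ZMod n)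
            rw [mul_comm (u _) (v _), add_comm] at this
            exact this
          · exact Finset.prod_nonneg fun l _ => hg _

end Pool.Agent.Helper82.TS
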